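import Pool.Agent.Helper88_ED.OneRoot

/-!
# Module A4b (`MinorOrderStatement`) for the ED degree of `σ₂(v_d)`
-/

open scoped Polynomial
open Polynomial

namespace Helper88_ED

noncomputable section

open Helper73_ED (aP bP mi)

/-- binomial expansion of `(1+y)^n` up to order four -/
lemma expand4 (y : ℂ[X]) (n : ℕ) : ∃ Q : ℂ[X], (1 + y) ^ n =
    1 + C (n : ℂ) * y + C ((n : ℂ) * (n - 1) / 2) * y ^ 2 +
      C ((n : ℂ) * (n - 1) * (n - 2) / 6) * y ^ 3 +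
      C ((n : ℂ) * (n - 1) * (n - 2) * (n - 3) / 24) * y ^ 4 + y ^ 5 * Q := by
  induction n with
  | zero => exact ⟨0, by simp⟩
  | succ n ih =>
    obtain ⟨Q, hQ⟩ := ih
    refine ⟨Q * (1 + y) + C ((n : ℂ) * (n - 1) * (n - 2) * (n - 3) / 24), ?_⟩
    rw [pow_succ, hQ]
    have e1 : C (((n + 1 : ℕ) : ℂ)) = C (n : ℂ) + 1 := by simp
    have e2 : C (((n + 1 : ℕ) : ℂ) * ((n + 1 : ℕ) - 1) / 2) =
        C ((n : ℂ) * (n - 1) / 2) + C (n : ℂ) := by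
      rw [← C_add]; congr 1; push_cast; ring
    have e3 : C (((n + 1 : ℕ) : ℂ) * ((n + 1 : ℕ) - 1) * ((n + 1 : ℕ) - 2) / 6) =
        C ((n : ℂ) * (n - 1) * (n - 2) / 6) + C ((n : ℂ) * (n - 1) / 2) := by
      rw [← C_add]; congr 1; push_cast; ring
    have e4 : C (((n + 1 : ℕ) : ℂ) * ((n + 1 : ℕ) - 1) * ((n + 1 : ℕ) - 2) *
        ((n + 1 : ℕ) - 3) / 24) =
        C ((n : ℂ) * (n - 1) * (n - 2) * (n - 3) / 24) + C ((n : ℂ) * (n - 1) * (n - 2) / 6) := by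
      rw [← C_add]; congr 1; push_cast; ring
    rw [e1, e2, e3, e4]
    ring

lemma mi_eq (d : ℕ) (hd : 4 ≤ d) : mi d d 0 =
    C ((d : ℂ) ^ 2) * X ^ 2 * (X ^ (d - 2) * ((1 + X) ^ (d - 1) - C (2 ^ (d - 1))) ^ 2 -
      ((1 + X) ^ (d - 1) - C (2 ^ (d - 1)) * X ^ (d - 1)) ^ 2) := by
  have h1 : (X : ℂ[X]) ^ d = X ^ 2 * X ^ (d - 2) := by rw [← pow_add]; congr 1; omega
  have h2 : (X : ℂ[X]) ^ (d - 1) = X * X ^ (d - 2) := by rw [← pow_succ']; congr 1; omega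
  rw [mi, aP, bP, aP, bP, h1, h2]
  simp only [Nat.cast_zero, C_0, C_mul, C_sub, C_pow, mul_zero, sub_zero, pow_zero, one_mul,
    zero_mul, mul_one]
  rw [show C (2 : ℂ) = 2 from rfl]
  ring

/-- the generic truncated computation -/
lemma trunc (e a1 a2 a3 a4 b0 b1 b2 b3 c0 c1 c2 c3 QA QB QC : ℂ[X]) (k : ℂ[X])
    (h0 : b0 ^ 2 = c0 ^ 2) (h1 : 2 * b0 * b1 + a1 * b0 ^ 2 = 2 * c0 * c1)
    (h2 : 2 * b0 * b2 + b1 ^ 2 + a1 * (2 * b0 * b1) + a2 * b0 ^ 2 = 2 * c0 * c2 + c1 ^ 2)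
    (h3 : 2 * b0 * b3 + 2 * b1 * b2 + a1 * (2 * b0 * b2 + b1 ^ 2) + a2 * (2 * b0 * b1) +
      a3 * b0 ^ 2 = 2 * c0 * c3 + 2 * c1 * c2 + k) :
    ∃ Q, (1 + a1 * e + a2 * e ^ 2 + a3 * e ^ 3 + a4 * e ^ 4 + e ^ 5 * QA) *
      (b0 + b1 * e + b2 * e ^ 2 + b3 * e ^ 3 + e ^ 4 * QB) ^ 2 -
      (c0 + c1 * e + c2 * e ^ 2 + c3 * e ^ 3 + e ^ 4 * QC) ^ 2 = e ^ 3 * (k + e * Q) := by
  refine ⟨(a4 + e * QA) * (b0 + b1 * e + b2 * e ^ 2 + b3 * e ^ 3 + e ^ 4 * QB) ^ 2 +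
    (1 + a1 * e + a2 * e ^ 2 + a3 * e ^ 3) *
      (2 * (b0 + b1 * e + b2 * e ^ 2 + b3 * e ^ 3) * QB + e ^ 4 * QB ^ 2) -
    (2 * (c0 + c1 * e + c2 * e ^ 2 + c3 * e ^ 3) * QC + e ^ 4 * QC ^ 2) +
    ((2 * b1 * b3 + b2 ^ 2 + 2 * b2 * b3 * e + b3 ^ 2 * e ^ 2) *
      (1 + a1 * e + a2 * e ^ 2 + a3 * e ^ 3) +
      (a1 * (2 * b0 * b3 + 2 * b1 * b2) + a2 * (2 * b0 * b2 + b1 ^ 2) + a3 * (2 * b0 * b1) +
        e * (a2 * (2 * b0 * b3 + 2 * b1 * b2) + a3 * (2 * b0 * b2 + b1 ^ 2)) +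
        e ^ 2 * (a3 * (2 * b0 * b3 + 2 * b1 * b2)))) -
    (2 * c1 * c3 + c2 ^ 2 + 2 * c2 * c3 * e + c3 ^ 2 * e ^ 2), ?_⟩
  linear_combination h0 + e * h1 + e ^ 2 * h2 + e ^ 3 * h3

/-- Module A4b. -/
theorem minorOrder : Helper73_ED.MinorOrderStatement := by
  intro d hd
  obtain ⟨n, rfl⟩ : ∃ n, d = n + 1 := ⟨d - 1, by omega⟩
  set e : ℂ[X] := X - 1 with he
  have hX : (X : ℂ[X]) = 1 + e := by rw [he]; ring
  obtain ⟨Qa, hQa⟩ := expand4 (C (1 / 2) * e) n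
  obtain ⟨Qb, hQb⟩ := expand4 e n
  obtain ⟨Qc, hQc⟩ := expand4 e (n - 1)
  have hn1 : ((n - 1 : ℕ) : ℂ) = n - 1 := by
    rw [Nat.cast_sub (by omega)]; simp
  rw [hn1] at hQc
  have hP : (1 + X : ℂ[X]) ^ n = C (2 ^ n) * (1 + C (1 / 2) * e) ^ n := by
    rw [C_pow, ← mul_pow]
    congr 1
    have : C (2 : ℂ) * C (1 / 2 : ℂ) = 1 := by rw [← C_mul, ← C_1]; congr 1; norm_num
    rw [mul_add, ← mul_assoc, this, hX, mul_one, one_mul, show C (2 : ℂ) = 2 from rfl]; ring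
  have hR : (X : ℂ[X]) ^ n = (1 + e) ^ n := by rw [hX]
  have hR' : (X : ℂ[X]) ^ (n - 1) = (1 + e) ^ (n - 1) := by rw [hX]
  have two : (2 : ℂ[X]) = C 2 := rfl
  obtain ⟨Q, hQ⟩ := trunc e (C ((n : ℂ) - 1)) (C (((n : ℂ) - 1) * ((n : ℂ) - 1 - 1) / 2))
    (C (((n : ℂ) - 1) * ((n : ℂ) - 1 - 1) * ((n : ℂ) - 1 - 2) / 6))
    (C (((n : ℂ) - 1) * ((n : ℂ) - 1 - 1) * ((n : ℂ) - 1 - 2) * ((n : ℂ) - 1 - 3) / 24))
    (C ((n : ℂ) / 2)) (C ((n : ℂ) * (n - 1) / 8)) (C ((n : ℂ) * (n - 1) * (n - 2) / 48))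
    (C ((n : ℂ) * (n - 1) * (n - 2) * (n - 3) / 384))
    (C (-(n : ℂ) / 2)) (C ((n : ℂ) * (n - 1) / 8 - (n : ℂ) * (n - 1) / 2))
    (C ((n : ℂ) * (n - 1) * (n - 2) / 48 - (n : ℂ) * (n - 1) * (n - 2) / 6))
    (C ((n : ℂ) * (n - 1) * (n - 2) * (n - 3) / 384 - (n : ℂ) * (n - 1) * (n - 2) * (n - 3) / 24))
    Qc (C (1 / 32) * Qa) (C (1 / 32) * Qa - Qb) (C ((n : ℂ) ^ 2 * ((n : ℂ) ^ 2 - 1) / 192))
    (by simp only [← C_pow]; congr 1; ring)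
    (by simp only [two, ← C_pow, ← C_mul, ← C_add]; congr 1; ring)
    (by simp only [two, ← C_pow, ← C_mul, ← C_add]; congr 1; ring)
    (by simp only [two, ← C_pow, ← C_mul, ← C_add]; congr 1; ring)
  have hA : (1 + C (1 / 2) * e) ^ n - 1 = e * (C ((n : ℂ) / 2) + C ((n : ℂ) * (n - 1) / 8) * e +
      C ((n : ℂ) * (n - 1) * (n - 2) / 48) * e ^ 2 +
      C ((n : ℂ) * (n - 1) * (n - 2) * (n - 3) / 384) * e ^ 3 + e ^ 4 * (C (1 / 32) * Qa)) := by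
    rw [hQa]
    have f1 : C ((n : ℂ) / 2) = C (n : ℂ) * C (1 / 2) := by rw [← C_mul]; congr 1; ring
    have f2 : C ((n : ℂ) * (n - 1) / 8) = C ((n : ℂ) * (n - 1) / 2) * C (1 / 2) ^ 2 := by
      rw [← C_pow, ← C_mul]; congr 1; ring
    have f3 : C ((n : ℂ) * (n - 1) * (n - 2) / 48) =
        C ((n : ℂ) * (n - 1) * (n - 2) / 6) * C (1 / 2) ^ 3 := by
      rw [← C_pow, ← C_mul]; congr 1; ring
    have f4 : C ((n : ℂ) * (n - 1) * (n - 2) * (n - 3) / 384) =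
        C ((n : ℂ) * (n - 1) * (n - 2) * (n - 3) / 24) * C (1 / 2) ^ 4 := by
      rw [← C_pow, ← C_mul]; congr 1; ring
    have f5 : C (1 / 32 : ℂ) = C (1 / 2) ^ 5 := by rw [← C_pow]; congr 1; norm_num
    rw [f1, f2, f3, f4, f5]
    ring
  have hC : (1 + C (1 / 2) * e) ^ n - (1 + e) ^ n = e * (C (-(n : ℂ) / 2) +
      C ((n : ℂ) * (n - 1) / 8 - (n : ℂ) * (n - 1) / 2) * e +
      C ((n : ℂ) * (n - 1) * (n - 2) / 48 - (n : ℂ) * (n - 1) * (n - 2) / 6) * e ^ 2 +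
      C ((n : ℂ) * (n - 1) * (n - 2) * (n - 3) / 384 -
        (n : ℂ) * (n - 1) * (n - 2) * (n - 3) / 24) * e ^ 3 + e ^ 4 * (C (1 / 32) * Qa - Qb)) := by
    have f0 : C (-(n : ℂ) / 2) = C ((n : ℂ) / 2) - C (n : ℂ) := by
      rw [← C_sub]; congr 1; ring
    rw [f0, C_sub, C_sub, C_sub]
    linear_combination hA - hQb
  set B : ℂ[X] := C (((n + 1 : ℕ) : ℂ) ^ 2 * (2 ^ n) ^ 2) *
    (C ((n : ℂ) ^ 2 * ((n : ℂ) ^ 2 - 1) / 192) + e * Q) with hB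
  have hmi : mi (n + 1) (n + 1) 0 = X ^ 2 * (X - 1) ^ 5 * B := by
    rw [mi_eq _ hd]
    rw [show n + 1 - 2 = n - 1 by omega, show n + 1 - 1 = n by omega]
    rw [hP, hR', hR, ← he, hB]
    rw [← hQc] at hQ
    have g1 : C (2 ^ n : ℂ) * (1 + C (1 / 2) * e) ^ n - C (2 ^ n : ℂ) =
        C (2 ^ n : ℂ) * ((1 + C (1 / 2) * e) ^ n - 1) := by ring
    have g2 : C (2 ^ n : ℂ) * (1 + C (1 / 2) * e) ^ n - C (2 ^ n : ℂ) * (1 + e) ^ n =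
        C (2 ^ n : ℂ) * ((1 + C (1 / 2) * e) ^ n - (1 + e) ^ n) := by ring
    rw [g1, g2, hA, hC, C_mul, C_pow (a := (2 : ℂ) ^ n), C_pow (a := ((n + 1 : ℕ) : ℂ))]
    generalize (C ((n : ℂ) / 2) + C ((n : ℂ) * (n - 1) / 8) * e +
      C ((n : ℂ) * (n - 1) * (n - 2) / 48) * e ^ 2 +
      C ((n : ℂ) * (n - 1) * (n - 2) * (n - 3) / 384) * e ^ 3 +
        e ^ 4 * (C (1 / 32) * Qa)) = AA at hQ ⊢
    generalize (C (-(n : ℂ) / 2) +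
      C ((n : ℂ) * (n - 1) / 8 - (n : ℂ) * (n - 1) / 2) * e +
      C ((n : ℂ) * (n - 1) * (n - 2) / 48 - (n : ℂ) * (n - 1) * (n - 2) / 6) * e ^ 2 +
      C ((n : ℂ) * (n - 1) * (n - 2) * (n - 3) / 384 -
        (n : ℂ) * (n - 1) * (n - 2) * (n - 3) / 24) * e ^ 3 +
        e ^ 4 * (C (1 / 32) * Qa - Qb)) = CC at hQ ⊢
    generalize (1 + e) ^ (n - 1) = R' at hQ ⊢
    generalize C ((n : ℂ) ^ 2 * ((n : ℂ) ^ 2 - 1) / 192) = K at hQ ⊢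
    linear_combination (C ((n + 1 : ℕ) : ℂ) ^ 2 * X ^ 2 * (C (2 ^ n : ℂ)) ^ 2 * e ^ 2) * hQ
  have hn0 : (n : ℂ) ≠ 0 := Nat.cast_ne_zero.mpr (by omega)
  have hn2 : (n : ℂ) ^ 2 - 1 ≠ 0 := by
    have : (n : ℂ) ^ 2 - 1 = ((n ^ 2 - 1 : ℕ) : ℂ) := by
      rw [Nat.cast_sub (Nat.one_le_pow _ _ (by omega))]; simp
    rw [this]
    refine Nat.cast_ne_zero.mpr ?_
    have : 3 ^ 2 ≤ n ^ 2 := Nat.pow_le_pow_left (by omega) 2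
    omega
  refine ⟨B, hmi, ?_, ?_⟩
  · intro h0
    have e1 : (mi (n + 1) (n + 1) 0).coeff 2 = 0 := by
      rw [hmi, mul_assoc, coeff_X_pow_mul', if_pos le_rfl, Nat.sub_self,
        coeff_zero_eq_eval_zero, eval_mul, h0, mul_zero]
    rw [mi_eq _ hd, mul_assoc, mul_comm (X ^ 2), ← mul_assoc, coeff_mul_X_pow',
      if_pos le_rfl, Nat.sub_self, coeff_zero_eq_eval_zero] at e1
    rw [show n + 1 - 2 = n - 1 by omega, show n + 1 - 1 = n by omega] at e1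
    simp [show n - 1 ≠ 0 by omega, show n ≠ 0 by omega] at e1
    exact absurd e1 (by exact_mod_cast Nat.succ_ne_zero n)
  · rw [hB, he]
    simp only [eval_mul, eval_add, eval_C, eval_sub, eval_X, eval_one, sub_self, zero_mul,
      add_zero]
    refine mul_ne_zero (mul_ne_zero (pow_ne_zero _ (Nat.cast_ne_zero.mpr (by omega)))
      (pow_ne_zero _ (pow_ne_zero _ (by norm_num)))) ?_
    exact div_ne_zero (mul_ne_zero (pow_ne_zero _ hn0) hn2) (by norm_num)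

end

end Helper88_ED
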