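import Pool.Agent.Helper88_ED.OrdZero

/-!
# Module A6 (`MinorsStatement`) for the ED degree of `σ₂(v_d)`
-/

open scoped Polynomial
open Polynomial

namespace Helper88_ED

noncomputable section

open Helper73_ED (aP bP fU gU RU mi)

/-- `(1+c)^n = 2^n` and `c^n = 1` with `n ≥ 1` force `c = 1`. -/
lemma eq_one_of_pow (n : ℕ) (hn : 1 ≤ n) (c : ℂ) (h1 : (1 + c) ^ n = 2 ^ n)
    (h2 : c ^ n = 1) : c = 1 := by
  have hc : ‖c‖ = 1 := by
    have : ‖c‖ ^ n = 1 := by rw [← norm_pow, h2, norm_one]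
    exact (pow_eq_one_iff_of_nonneg (norm_nonneg _) (by omega)).mp this
  have h1c : ‖1 + c‖ = 2 := by
    have : ‖1 + c‖ ^ n = 2 ^ n := by rw [← norm_pow, h1, norm_pow]; simp
    exact (pow_left_inj₀ (norm_nonneg _) (by norm_num) (by omega)).mp this
  have e1 : c.re ^ 2 + c.im ^ 2 = 1 := by
    have := Complex.sq_norm c
    rw [hc, Complex.normSq_apply] at this
    nlinarith
  have e2 : (1 + c.re) ^ 2 + c.im ^ 2 = 4 := by
    have := Complex.sq_norm (1 + c)
    rw [h1c, Complex.normSq_apply] at this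
    simp at this
    nlinarith
  have hre : c.re = 1 := by nlinarith
  have him : c.im = 0 := by
    rw [hre] at e1
    have : c.im ^ 2 = 0 := by linarith
    exact pow_eq_zero_iff (by norm_num) |>.mp this
  exact Complex.ext (by simpa using hre) (by simpa using him)

lemma aP_eval (d j : ℕ) (c : ℂ) : (aP d j).eval c =
    (1 + c) ^ (d - 1) * (d - j * (1 + c)) - 2 ^ (d - 1) * (d - 2 * j) * c ^ j := by
  simp [aP]

lemma bP_eval (d j : ℕ) (c : ℂ) : (bP d j).eval c =
    c ^ j * (1 + c) ^ (d - 1) * (d * c - j * (1 + c)) - 2 ^ (d - 1) * (d - 2 * j) * c ^ d := by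
  simp [bP]

lemma ends_ne (d : ℕ) (hd : 4 ≤ d) (c : ℂ) (hc0 : c ≠ 0) (hc1 : c ≠ 1) :
    ((aP d 0).eval c ≠ 0 ∨ (bP d 0).eval c ≠ 0) ∧
    ((aP d d).eval c ≠ 0 ∨ (bP d d).eval c ≠ 0) := by
  have hd0 : (d : ℂ) ≠ 0 := Nat.cast_ne_zero.mpr (by omega)
  have hpow : c ^ d = c ^ (d - 1) * c := by rw [← pow_succ]; congr 1; omega
  have key : ∀ (h1 : (1 + c) ^ (d - 1) = 2 ^ (d - 1))
      (h2 : (1 + c) ^ (d - 1) = 2 ^ (d - 1) * c ^ (d - 1)), False := by
    intro h1 h2
    have h3 : c ^ (d - 1) = 1 := by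
      rw [h1] at h2
      have h4 : (2 : ℂ) ^ (d - 1) ≠ 0 := pow_ne_zero _ (by norm_num)
      have : (2 : ℂ) ^ (d - 1) * c ^ (d - 1) = 2 ^ (d - 1) * 1 := by rw [← h2, mul_one]
      exact mul_left_cancel₀ h4 this
    exact hc1 (eq_one_of_pow (d - 1) (by omega) c h1 h3)
  constructor
  · by_contra h
    push Not at h
    obtain ⟨h1, h2⟩ := h
    rw [aP_eval] at h1
    rw [bP_eval] at h2
    refine key ?_ ?_
    · apply mul_left_cancel₀ hd0
      simp at h1
      linear_combination h1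
    · apply mul_left_cancel₀ (mul_ne_zero hd0 hc0)
      simp at h2
      rw [hpow] at h2
      linear_combination h2
  · by_contra h
    push Not at h
    obtain ⟨h1, h2⟩ := h
    rw [aP_eval] at h1
    rw [bP_eval] at h2
    refine key ?_ ?_
    · apply mul_left_cancel₀ (mul_ne_zero hd0 (pow_ne_zero d hc0))
      linear_combination -h2
    · apply mul_left_cancel₀ (mul_ne_zero hd0 hc0)
      rw [hpow] at h1
      linear_combination -h1

/-- Module A6. -/
theorem minors : Helper73_ED.MinorsStatement := by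
  intro d hd c hc0 hc1
  refine ⟨?_, ends_ne d hd c hc0 hc1⟩
  by_contra hcon
  push Not at hcon
  have h0 := (ends_ne d hd c hc0 hc1).1
  set lam := (bP d 0).eval c with hlam
  set mu := -(aP d 0).eval c with hmu
  have hrel : ∀ j ≤ d, lam * (aP d j).eval c + mu * (bP d j).eval c = 0 := by
    intro j hj
    rcases Nat.eq_zero_or_pos j with rfl | hj0
    · rw [hlam, hmu]; ring
    · have := hcon 0 j hj0 hj
      rw [mi, eval_sub, eval_mul, eval_mul] at this
      rw [hlam, hmu]; linear_combination -this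
  set P := (1 + c) ^ (d - 1) with hP
  set T := (2 : ℂ) ^ (d - 1) with hT
  have hT0 : T ≠ 0 := pow_ne_zero _ (by norm_num)
  have hd0 : (d : ℂ) ≠ 0 := Nat.cast_ne_zero.mpr (by omega)
  have hcd : c ^ d ≠ 0 := pow_ne_zero _ hc0
  obtain ⟨K0, hK0⟩ : ∃ K, K = d * (lam * P - mu * T * c ^ d) := ⟨_, rfl⟩
  obtain ⟨K1, hK1⟩ : ∃ K, K = -(1 + c) * lam * P + 2 * mu * T * c ^ d := ⟨_, rfl⟩
  obtain ⟨K2, hK2⟩ : ∃ K, K = d * (-lam * T + mu * P * c) := ⟨_, rfl⟩
  obtain ⟨K3, hK3⟩ : ∃ K, K = 2 * lam * T - (1 + c) * mu * P := ⟨_, rfl⟩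
  have hK : ∀ j ≤ d, K0 + K1 * j + K2 * c ^ j + K3 * j * c ^ j = 0 := by
    intro j hj
    have := hrel j hj
    rw [aP_eval, bP_eval] at this
    rw [hK0, hK1, hK2, hK3]
    linear_combination this
  have r0 := hK 0 (by omega)
  have r1 := hK 1 (by omega)
  have r2 := hK 2 (by omega)
  have r3 := hK 3 (by omega)
  norm_num at r0 r1 r2 r3
  have hc1' : c - 1 ≠ 0 := sub_ne_zero.mpr hc1
  -- confluent Vandermonde elimination
  have z0 : K2 * (c - 1) ^ 2 + 2 * K3 * c * (c - 1) = 0 := by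
    linear_combination r2 - 2 * r1 + r0
  have z1 : c * ((K2 + K3) * (c - 1) ^ 2 + 2 * K3 * c * (c - 1)) = 0 := by
    linear_combination r3 - 2 * r2 + r1
  have k3 : K3 = 0 := by
    have : c * (c - 1) ^ 2 * K3 = 0 := by linear_combination z1 - c * z0
    exact (mul_eq_zero.mp this).resolve_left (mul_ne_zero hc0 (pow_ne_zero _ hc1'))
  have k2 : K2 = 0 := by
    rw [k3] at z0
    have : (c - 1) ^ 2 * K2 = 0 := by linear_combination z0
    exact (mul_eq_zero.mp this).resolve_left (pow_ne_zero _ hc1')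
  have k0 : K0 = 0 := by rw [k2] at r0; linear_combination r0
  have k1 : K1 = 0 := by rw [k0, k2, k3] at r1; linear_combination r1
  have e0 : lam * P - mu * T * c ^ d = 0 := by
    rw [hK0] at k0; exact (mul_eq_zero.mp k0).resolve_left hd0
  have e2 : -lam * T + mu * P * c = 0 := by
    rw [hK2] at k2; exact (mul_eq_zero.mp k2).resolve_left hd0
  rw [hK1] at k1
  have e3 : (c - 1) * (mu * T * c ^ d) = 0 := by linear_combination -k1 - (1 + c) * e0
  have hmu0 : mu = 0 := by
    have := (mul_eq_zero.mp e3).resolve_left hc1'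
    have := (mul_eq_zero.mp this).resolve_right hcd
    exact (mul_eq_zero.mp this).resolve_right hT0
  have hlam0 : lam = 0 := by
    rw [hmu0] at e2
    have : lam * T = 0 := by linear_combination -e2
    exact (mul_eq_zero.mp this).resolve_right hT0
  rcases h0 with h | h
  · exact h (by rw [hmu] at hmu0; exact neg_eq_zero.mp hmu0)
  · exact h (by rw [← hlam0])

end

end Helper88_ED
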