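import Pool.Agent.Helper88_ED.Minors

/-!
# Modules A8 (`OneRootStatement`) and A4a (`SpecialZeroStatement`) for the ED degree of `σ₂(v_d)`
-/

open scoped Polynomial
open Polynomial

namespace Helper88_ED

noncomputable section

open Helper73_ED (aP bP fU gU RU mi dl F1 F2)

lemma resultant_zero_iff_aux {K : Type*} [Field K] [IsAlgClosed K] (f g : K[X]) (d : ℕ)
    (hf : f.natDegree ≤ d) (hg : g.natDegree ≤ d) (h : f.coeff d ≠ 0) :
    resultant f g d d = 0 ↔ ∃ x, f.eval x = 0 ∧ g.eval x = 0 := by
  have hfd : f.natDegree = d := le_antisymm hf (le_natDegree_of_ne_zero h)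
  have hf0 : f ≠ 0 := by rintro rfl; simp at h
  obtain ⟨k, hk⟩ : ∃ k, d = g.natDegree + k := ⟨d - g.natDegree, by omega⟩
  have h1 : resultant f g d d = f.coeff d ^ k * resultant f g := by
    conv_lhs => rw [show resultant f g d d = resultant f g d (g.natDegree + k) by rw [← hk]]
    rw [resultant_add_right_deg _ _ _ _ _ le_rfl, hfd]
  rw [h1, mul_eq_zero, or_iff_right (pow_ne_zero _ h), resultant_eq_zero_iff,
    Polynomial.isCoprime_iff_aeval_ne_zero_of_isAlgClosed K K]
  constructor
  · rintro ⟨-, h2⟩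
    push Not at h2
    obtain ⟨a, ha1, ha2⟩ := h2
    exact ⟨a, by simpa using ha1, by simpa using ha2⟩
  · rintro ⟨a, ha1, ha2⟩
    refine ⟨Or.inl hf0, ?_⟩
    push Not
    exact ⟨a, by simpa using ha1, by simpa using ha2⟩

lemma resultant_zero_iff {K : Type*} [Field K] [IsAlgClosed K] (f g : K[X]) (d : ℕ)
    (hf : f.natDegree ≤ d) (hg : g.natDegree ≤ d) (h : f.coeff d ≠ 0 ∨ g.coeff d ≠ 0) :
    resultant f g d d = 0 ↔ ∃ x, f.eval x = 0 ∧ g.eval x = 0 := by
  rcases h with h | h
  · exact resultant_zero_iff_aux f g d hf hg h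
  · rw [resultant_comm, mul_eq_zero, or_iff_right (pow_ne_zero _ (by norm_num)),
      resultant_zero_iff_aux g f d hg hf h]
    exact exists_congr fun x => and_comm

lemma RU_eval (d : ℕ) (U : Fin (d + 1) → ℂ) (y : ℂ) : (RU d U).eval y =
    resultant ((fU d U).map (evalRingHom y)) ((gU d U).map (evalRingHom y)) d d := by
  rw [resultant_map_map]; rfl

lemma fU_map_eval (d : ℕ) (U : Fin (d + 1) → ℂ) (r s : ℂ) :
    ((fU d U).map (evalRingHom r)).eval s = F1 d U r s := by
  simp [fU, F1, eval_finsetSum, Polynomial.map_sum]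

lemma gU_map_eval (d : ℕ) (U : Fin (d + 1) → ℂ) (r s : ℂ) :
    ((gU d U).map (evalRingHom r)).eval s = F2 d U r s := by
  simp [gU, F2, eval_finsetSum, Polynomial.map_sum]

/-- Module A8. -/
theorem oneRoot : Helper73_ED.OneRootStatement := by
  intro d hd U r hr0 hr1 hU0 hUd
  obtain ⟨hz, hl⟩ := ends_ne d hd r hr0 hr1
  rw [RU_eval, resultant_zero_iff]
  · constructor
    · rintro ⟨s, h1, h2⟩
      rw [fU_map_eval] at h1
      rw [gU_map_eval] at h2
      refine ⟨s, ?_, h1, h2⟩
      rintro rfl
      have e1 : F1 d U r 0 = U 0 * (aP d 0).eval r := by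
        rw [F1, Finset.sum_eq_single (0 : Fin (d + 1))]
        · simp
        · intro b _ hb
          have : (b : ℕ) ≠ 0 := fun h => hb (Fin.ext h)
          simp [this]
        · simp
      have e2 : F2 d U r 0 = U 0 * (bP d 0).eval r := by
        rw [F2, Finset.sum_eq_single (0 : Fin (d + 1))]
        · simp
        · intro b _ hb
          have : (b : ℕ) ≠ 0 := fun h => hb (Fin.ext h)
          simp [this]
        · simp
      rw [e1] at h1
      rw [e2] at h2
      rcases hz with h | h
      · exact h ((mul_eq_zero.mp h1).resolve_left hU0)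
      · exact h ((mul_eq_zero.mp h2).resolve_left hU0)
    · rintro ⟨s, -, h1, h2⟩
      exact ⟨s, by rw [fU_map_eval, h1], by rw [gU_map_eval, h2]⟩
  · exact (natDegree_map_le).trans (fU_natDegree d U)
  · exact (natDegree_map_le).trans (gU_natDegree d U)
  · have hlast : (⟨d, by omega⟩ : Fin (d + 1)) = Fin.last d := rfl
    rcases hl with h | h
    · left
      rw [coeff_map, fU_coeff, dif_pos (by omega), hlast]
      simpa using ⟨hUd, h⟩
    · right
      rw [coeff_map, gU_coeff, dif_pos (by omega), hlast]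
      simpa using ⟨hUd, h⟩

lemma aP_last_ne (d : ℕ) (hd : 2 ≤ d) : aP d d ≠ 0 := by
  intro h
  have h1 : (aP d d).eval (-1) = 0 := by rw [h]; simp
  rw [aP_eval] at h1
  have h2 : ((1 : ℂ) + -1) ^ (d - 1) = 0 := by
    rw [show (1 : ℂ) + -1 = 0 by norm_num]; exact zero_pow (by omega)
  rw [h2] at h1
  have h3 : (2 : ℂ) ^ (d - 1) * (d : ℂ) * (-1) ^ d ≠ 0 :=
    mul_ne_zero (mul_ne_zero (pow_ne_zero _ (by norm_num)) (Nat.cast_ne_zero.mpr (by omega)))
      (pow_ne_zero _ (by norm_num))
  apply h3
  linear_combination h1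

/-- Module A4a. -/
theorem specialZero : Helper73_ED.SpecialZeroStatement := by
  intro d hd
  set U : Fin (d + 1) → ℂ := dl d 0 + dl d d with hU
  have hUj : ∀ j : ℕ, ∀ h : j < d + 1, U ⟨j, h⟩ = if j = 0 then 1 else if j = d then 1 else 0 := by
    intro j h
    simp only [hU, Pi.add_apply, dl]
    split_ifs <;> first | omega | simp
  have hf : fU d U = C (aP d 0) + C (aP d d) * X ^ d := by
    ext1 j
    rw [fU_coeff, coeff_add, coeff_C, coeff_C_mul_X_pow]
    split_ifs <;> first | omega | skip
    all_goals (first | rw [hUj] | skip)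
    all_goals simp_all
  have hg : gU d U = C (bP d 0) + C (bP d d) * X ^ d := by
    ext1 j
    rw [gU_coeff, coeff_add, coeff_C, coeff_C_mul_X_pow]
    split_ifs <;> first | omega | skip
    all_goals (first | rw [hUj] | skip)
    all_goals simp_all
  have h1 : aP d d ^ d * RU d U = resultant (fU d U) (C (aP d d) * gU d U) d d :=
    (resultant_C_mul_right _ _ _ _ _).symm
  have h2 : resultant (fU d U) (C (aP d d) * gU d U + fU d U * C (-(bP d d))) d d =
      resultant (fU d U) (C (aP d d) * gU d U) d d :=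
    resultant_add_mul_right _ _ _ _ _ (by rw [natDegree_C]; omega) (fU_natDegree d U)
  have h3 : C (aP d d) * gU d U + fU d U * C (-(bP d d)) = C (mi d d 0) := by
    rw [hf, hg, mi]
    simp only [C_sub, C_mul, C_neg]
    ring
  rw [← h2, h3, resultant_C_right] at h1
  have h4 : (fU d U).coeff d = aP d d := by
    rw [fU_coeff, dif_pos (by omega), hUj, if_neg (by omega), if_pos rfl]; simp
  rw [h4] at h1
  exact mul_left_cancel₀ (pow_ne_zero _ (aP_last_ne d (by omega))) h1

end

end Helper88_ED
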