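import Pool.Agent.Helper88_ED.TwoRoots

/-!
# Module A1 (`OrdZeroStatement`) for the ED degree of `σ₂(v_d)`
-/

open scoped Polynomial
open Polynomial

namespace Helper88_ED

noncomputable section

open Helper73_ED (aP bP fU gU RU)

/-- Potentials: if `p^(u k + w c) ∣ M k c * p^(v c)` for all entries then
`p^(∑ u + ∑ w) ∣ det M * p^(∑ v)`. -/
lemma pow_dvd_det {R ι : Type*} [CommRing R] [Fintype ι] [DecidableEq ι] (M : Matrix ι ι R)
    (p : R) (u v w : ι → ℕ) (h : ∀ k c, p ^ (u k + w c) ∣ M k c * p ^ (v c)) :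
    p ^ (∑ k, u k + ∑ c, w c) ∣ M.det * p ^ (∑ c, v c) := by
  choose N hN using h
  have h1 : (Matrix.of fun k c => p ^ (v c) * M k c).det = (∏ c, p ^ (v c)) * M.det :=
    Matrix.det_mul_row _ _
  have h2 : (Matrix.of fun k c => p ^ (v c) * M k c) =
      Matrix.of fun k c => p ^ (u k) * (Matrix.of fun k c => p ^ (w c) * N k c) k c := by
    ext k c
    simp only [Matrix.of_apply]
    rw [mul_comm, hN, pow_add]; ring
  rw [h2, Matrix.det_mul_column, Matrix.det_mul_row, Finset.prod_pow_eq_pow_sum,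
    Finset.prod_pow_eq_pow_sum, Finset.prod_pow_eq_pow_sum] at h1
  rw [mul_comm M.det, ← h1, pow_add]
  exact ⟨Matrix.det N, by ring⟩

lemma fU_coeff (d : ℕ) (U : Fin (d + 1) → ℂ) (j : ℕ) :
    (fU d U).coeff j = if h : j < d + 1 then C (U ⟨j, h⟩) * aP d j else 0 := by
  simp only [fU, finsetSum_coeff, coeff_C_mul_X_pow]
  split_ifs with h
  · rw [Finset.sum_eq_single (⟨j, h⟩ : Fin (d + 1))]
    · simp
    · intro b _ hb
      rw [if_neg]
      intro hj; exact hb (Fin.ext hj.symm)
    · simp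
  · refine Finset.sum_eq_zero fun b _ => ?_
    rw [if_neg]
    intro hj; exact h (hj ▸ b.2)

lemma gU_coeff (d : ℕ) (U : Fin (d + 1) → ℂ) (j : ℕ) :
    (gU d U).coeff j = if h : j < d + 1 then C (U ⟨j, h⟩) * bP d j else 0 := by
  simp only [gU, finsetSum_coeff, coeff_C_mul_X_pow]
  split_ifs with h
  · rw [Finset.sum_eq_single (⟨j, h⟩ : Fin (d + 1))]
    · simp
    · intro b _ hb
      rw [if_neg]
      intro hj; exact hb (Fin.ext hj.symm)
    · simp
  · refine Finset.sum_eq_zero fun b _ => ?_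
    rw [if_neg]
    intro hj; exact h (hj ▸ b.2)

lemma X_dvd_aP_last (d : ℕ) (hd : 1 ≤ d) : (X : ℂ[X]) ∣ aP d d := by
  unfold aP
  refine dvd_sub ?_ ?_
  · refine Dvd.dvd.mul_left ?_ _
    refine ⟨-C (d : ℂ), by ring⟩
  · exact Dvd.dvd.mul_left (dvd_pow_self _ (by omega)) _

lemma X_pow_dvd_bP (d j : ℕ) (hj : j ≤ d) : (X : ℂ[X]) ^ j ∣ bP d j := by
  unfold bP
  refine dvd_sub ?_ ?_
  · rw [mul_assoc]; exact dvd_mul_right _ _
  · exact Dvd.dvd.mul_left (pow_dvd_pow _ hj) _

lemma X_dvd_bP (d j : ℕ) (hd : 1 ≤ d) : (X : ℂ[X]) ∣ bP d j := by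
  rcases Nat.eq_zero_or_pos j with rfl | hj
  · unfold bP
    refine dvd_sub ?_ ?_
    · refine Dvd.dvd.mul_left ?_ _
      refine ⟨C (d : ℂ), by simp; ring⟩
    · exact Dvd.dvd.mul_left (dvd_pow_self _ (by omega)) _
  · unfold bP
    refine dvd_sub ?_ ?_
    · rw [mul_assoc]; exact Dvd.dvd.mul_right (dvd_pow_self _ (by omega)) _
    · exact Dvd.dvd.mul_left (dvd_pow_self _ (by omega)) _

lemma sum_fin_add (d : ℕ) (f : ℕ → ℕ) :
    ∑ c : Fin (d + d), Fin.addCases (fun _ : Fin d => 0) (fun j : Fin d => f j) c =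
      ∑ j ∈ Finset.range d, f j := by
  rw [Fin.sum_univ_add]
  simp only [Fin.addCases_left, Fin.addCases_right, Finset.sum_const_zero, zero_add]
  exact Fin.sum_univ_eq_sum_range f d

/-- Module A1. -/
theorem ordZero : Helper73_ED.OrdZeroStatement := by
  intro d hd U
  have key := pow_dvd_det (sylvester (fU d U) (gU d U) d d) (X : ℂ[X])
    (fun k => (k : ℕ) - d)
    (fun c => Fin.addCases (fun _ : Fin d => 0) (fun j : Fin d => (j : ℕ) - 1) c)
    (fun c => Fin.addCases (fun _ : Fin d => 1) (fun _ : Fin d => 0) c) ?_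
  · have s1 : ∑ k : Fin (d + d), ((k : ℕ) - d) = ∑ i ∈ Finset.range d, i := by
      rw [Fin.sum_univ_eq_sum_range (fun k => k - d) (d + d), Finset.sum_range_add]
      have : ∑ x ∈ Finset.range d, (x - d) = 0 :=
        Finset.sum_eq_zero fun x hx => by have := Finset.mem_range.mp hx; omega
      rw [this, zero_add]
      exact Finset.sum_congr rfl fun x _ => by omega
    have s2 : ∑ c : Fin (d + d),
        (Fin.addCases (fun _ : Fin d => 0) (fun j : Fin d => (j : ℕ) - 1) c : ℕ) =
          ∑ j ∈ Finset.range d, (j - 1) := sum_fin_add d (fun j => j - 1)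
    have s3 : ∑ c : Fin (d + d),
        (Fin.addCases (fun _ : Fin d => 1) (fun _ : Fin d => 0) c : ℕ) = d := by
      rw [Fin.sum_univ_add]
      simp only [Fin.addCases_left, Fin.addCases_right, Finset.sum_const_zero, add_zero]
      simp
    have s4 : ∑ i ∈ Finset.range d, i = ∑ j ∈ Finset.range d, (j - 1) + (d - 1) := by
      obtain ⟨e, rfl⟩ : ∃ e, d = e + 1 := ⟨d - 1, by omega⟩
      rw [Finset.sum_range_succ, Finset.sum_range_succ' (fun j => j - 1)]
      simp
    rw [s1, s2, s3, s4, show ∑ j ∈ Finset.range d, (j - 1) + (d - 1) + d =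
      (2 * d - 1) + ∑ j ∈ Finset.range d, (j - 1) by omega, pow_add] at key
    exact (mul_dvd_mul_iff_right (pow_ne_zero _ X_ne_zero)).mp key
  · intro k c
    induction c using Fin.addCases with
    | left i =>
      have hi := i.2
      simp only [Fin.addCases_left, pow_zero, mul_one, sylvester, Matrix.of_apply, Set.mem_Icc]
      split_ifs with h
      · rw [gU_coeff, dif_pos (by omega)]
        refine Dvd.dvd.mul_left ?_ _
        by_cases hk : (k : ℕ) ≤ d
        · rw [show (k : ℕ) - d + 1 = 1 by omega, pow_one]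
          exact X_dvd_bP d _ (by omega)
        · refine (pow_dvd_pow _ ?_).trans (X_pow_dvd_bP d _ (by omega))
          omega
      · exact dvd_zero _
    | right i =>
      have hi := i.2
      simp only [Fin.addCases_right, add_zero, sylvester, Matrix.of_apply, Set.mem_Icc]
      split_ifs with h
      · rcases Nat.lt_or_ge (k : ℕ) (i + d) with hk | hk
        · exact Dvd.dvd.mul_left (pow_dvd_pow _ (by omega)) _
        · have hk' : (k : ℕ) - i = d := by omega
          rw [hk', fU_coeff, dif_pos (by omega)]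
          have h1 := X_dvd_aP_last d (by omega)
          have h2 : (X : ℂ[X]) ^ ((k : ℕ) - d) ∣ X * X ^ ((i : ℕ) - 1) := by
            rw [← pow_succ']
            exact pow_dvd_pow _ (by omega)
          refine h2.trans (mul_dvd_mul (Dvd.dvd.mul_left h1 _) dvd_rfl)
      · simp

end

end Helper88_ED
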