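import Pool.Agent.Helper88_ED.OrdZero

/-!
# Module A3 (`PalinStatement`) for the ED degree of `σ₂(v_d)`
-/

open scoped Polynomial
open Polynomial

namespace Helper88_ED

noncomputable section

open Helper73_ED (aP bP fU gU RU)

/-- Scaling the variable in a resultant with formal degrees. -/
lemma resultant_scale {K : Type*} [Field K] (f g : K[X]) (d : ℕ) (x : K) (hx : x ≠ 0) :
    resultant (f.comp (C x * X)) (g.comp (C x * X)) d d = x ^ (d * d) * resultant f g d d := by
  set M := sylvester f g d d with hM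
  set M' := sylvester (f.comp (C x * X)) (g.comp (C x * X)) d d with hM'
  have h : (Matrix.of fun k c =>
      x ^ (Fin.addCases (fun j : Fin d => (j : ℕ)) (fun j : Fin d => (j : ℕ)) c : ℕ) * M' k c) =
      Matrix.of fun (k : Fin (d + d)) c => x ^ (k : ℕ) * M k c := by
    ext k c
    simp only [Matrix.of_apply]
    induction c using Fin.addCases with
    | left i =>
      simp only [hM, hM', sylvester, Matrix.of_apply, Fin.addCases_left, Set.mem_Icc]
      split_ifs with h
      · rw [comp_C_mul_X_coeff, mul_comm (g.coeff _), ← mul_assoc, ← pow_add]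
        congr 2
        omega
      · simp
    | right i =>
      simp only [hM, hM', sylvester, Matrix.of_apply, Fin.addCases_right, Set.mem_Icc]
      split_ifs with h
      · rw [comp_C_mul_X_coeff, mul_comm (f.coeff _), ← mul_assoc, ← pow_add]
        congr 2
        omega
      · simp
  have h2 := congrArg Matrix.det h
  rw [Matrix.det_mul_row, Matrix.det_mul_column, Finset.prod_pow_eq_pow_sum,
    Finset.prod_pow_eq_pow_sum] at h2
  have s1 : ∑ c : Fin (d + d),
      (Fin.addCases (fun j : Fin d => (j : ℕ)) (fun j : Fin d => (j : ℕ)) c : ℕ) =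
        ∑ j ∈ Finset.range d, j + ∑ j ∈ Finset.range d, j := by
    rw [Fin.sum_univ_add]
    simp only [Fin.addCases_left, Fin.addCases_right]
    rw [Fin.sum_univ_eq_sum_range (fun j => j) d]
  have s2 : ∑ k : Fin (d + d), (k : ℕ) = ∑ j ∈ Finset.range d, j + ∑ j ∈ Finset.range d, j
      + d * d := by
    rw [Fin.sum_univ_eq_sum_range (fun j => j) (d + d), Finset.sum_range_add,
      Finset.sum_add_distrib]
    simp; ring
  rw [s1, s2, pow_add _ _ (d * d), mul_assoc] at h2
  exact mul_left_cancel₀ (pow_ne_zero _ hx) h2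

lemma aP_natDegree (d j : ℕ) (hd : 1 ≤ d) (hj : j ≤ d) : (aP d j).natDegree ≤ d := by
  unfold aP
  refine (natDegree_sub_le _ _).trans (max_le ?_ ?_)
  · refine natDegree_mul_le.trans ?_
    have h1 : ((1 + X : ℂ[X]) ^ (d - 1)).natDegree ≤ d - 1 := by
      refine (natDegree_pow_le).trans ?_
      have : (1 + X : ℂ[X]).natDegree ≤ 1 := by compute_degree
      nlinarith
    have h2 : (C (d : ℂ) - C (j : ℂ) * (1 + X)).natDegree ≤ 1 := by compute_degree
    omega
  · exact (natDegree_C_mul_X_pow_le _ _).trans hj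

/-- `a_j(x) = x^(j+d) b_j(1/x)` -/
lemma aP_eval_inv (d j : ℕ) (hd : 1 ≤ d) (x : ℂ) (hx : x ≠ 0) :
    (aP d j).eval x = x ^ (j + d) * (bP d j).eval x⁻¹ := by
  simp only [aP, bP, eval_sub, eval_mul, eval_pow, eval_add, eval_one, eval_X, eval_C]
  have h1 : x ^ (d - 1) * (1 + x⁻¹) ^ (d - 1) = (1 + x) ^ (d - 1) := by
    rw [← mul_pow]; congr 1; field_simp; ring
  have h2 : x ^ j * x⁻¹ ^ j = 1 := by rw [← mul_pow, mul_inv_cancel₀ hx, one_pow]
  have h3 : x ^ d * x⁻¹ ^ d = 1 := by rw [← mul_pow, mul_inv_cancel₀ hx, one_pow]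
  have h4 : x ^ d = x ^ (d - 1) * x := by rw [← pow_succ]; congr 1; omega
  have e1 : x ^ (j + d) * (x⁻¹ ^ j * (1 + x⁻¹) ^ (d - 1) * ((d : ℂ) * x⁻¹ - j * (1 + x⁻¹)) -
      2 ^ (d - 1) * ((d : ℂ) - 2 * j) * x⁻¹ ^ d) =
      (x ^ j * x⁻¹ ^ j) * (x ^ (d - 1) * (1 + x⁻¹) ^ (d - 1)) *
        (x * ((d : ℂ) * x⁻¹ - j * (1 + x⁻¹))) -
      2 ^ (d - 1) * ((d : ℂ) - 2 * j) * x ^ j * (x ^ d * x⁻¹ ^ d) := by
    rw [pow_add]
    rw [h4]; ring
  have e2 : x * ((d : ℂ) * x⁻¹ - j * (1 + x⁻¹)) = d - j * (1 + x) := by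
    field_simp; ring
  rw [e1, h1, h2, h3, e2]; ring

lemma bP_eval_inv (d j : ℕ) (hd : 1 ≤ d) (x : ℂ) (hx : x ≠ 0) :
    (bP d j).eval x = x ^ (j + d) * (aP d j).eval x⁻¹ := by
  have := aP_eval_inv d j hd x⁻¹ (inv_ne_zero hx)
  rw [inv_inv] at this
  rw [this, ← mul_assoc, ← mul_pow, mul_inv_cancel₀ hx, one_pow, one_mul]

/-- specialised polynomials -/
lemma fU_map (d : ℕ) (U : Fin (d + 1) → ℂ) (hd : 1 ≤ d) (x : ℂ) (hx : x ≠ 0) :
    (fU d U).map (evalRingHom x) =
      C (x ^ d) * ((gU d U).map (evalRingHom x⁻¹)).comp (C x * X) := by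
  ext j
  rw [coeff_C_mul, comp_C_mul_X_coeff, coeff_map, coeff_map, fU_coeff, gU_coeff]
  split_ifs with h
  · simp only [coe_evalRingHom, eval_mul, eval_C]
    rw [aP_eval_inv d j hd x hx, pow_add]; ring
  · simp

lemma gU_map (d : ℕ) (U : Fin (d + 1) → ℂ) (hd : 1 ≤ d) (x : ℂ) (hx : x ≠ 0) :
    (gU d U).map (evalRingHom x) =
      C (x ^ d) * ((fU d U).map (evalRingHom x⁻¹)).comp (C x * X) := by
  ext j
  rw [coeff_C_mul, comp_C_mul_X_coeff, coeff_map, coeff_map, fU_coeff, gU_coeff]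
  split_ifs with h
  · simp only [coe_evalRingHom, eval_mul, eval_C]
    rw [bP_eval_inv d j hd x hx, pow_add]; ring
  · simp

lemma RU_eval_inv (d : ℕ) (U : Fin (d + 1) → ℂ) (hd : 1 ≤ d) (x : ℂ) (hx : x ≠ 0) :
    (RU d U).eval x = (-1) ^ d * (x ^ (3 * d ^ 2) * (RU d U).eval x⁻¹) := by
  have h1 : ∀ y : ℂ, (RU d U).eval y =
      resultant ((fU d U).map (evalRingHom y)) ((gU d U).map (evalRingHom y)) d d := by
    intro y
    rw [resultant_map_map]; rfl
  rw [h1, h1, fU_map d U hd x hx, gU_map d U hd x hx, resultant_C_mul_left,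
    resultant_C_mul_right, resultant_scale _ _ _ _ hx, resultant_comm]
  have e : (-1 : ℂ) ^ (d * d) = (-1) ^ d := by
    rcases Nat.even_or_odd d with h | h
    · rw [h.neg_one_pow, (h.mul_right d).neg_one_pow]
    · rw [h.neg_one_pow, (h.mul h).neg_one_pow]
  rw [e]
  have e2 : x ^ (3 * d ^ 2) = (x ^ d) ^ d * ((x ^ d) ^ d * x ^ (d * d)) := by
    rw [← pow_mul, ← pow_add, ← pow_add]; congr 1; ring
  rw [e2]; ring

/-- A polynomial satisfying a functional equation under `x ↦ 1/x` is (anti)palindromic. -/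
lemma palin_of_eval (R : ℂ[X]) (m : ℕ) (e : ℂ) (he : e ≠ 0)
    (h : ∀ x : ℂ, x ≠ 0 → R.eval x = e * (x ^ m * R.eval x⁻¹)) :
    R.natDegree ≤ m ∧ ∀ n ≤ m, R.coeff n = e * R.coeff (m - n) := by
  have eq_of : ∀ P Q : ℂ[X], (∀ x : ℂ, x ≠ 0 → P.eval x = Q.eval x) → P = Q := by
    intro P Q hPQ
    have : X * P = X * Q := by
      refine Polynomial.funext fun x => ?_
      by_cases hx : x = 0
      · simp [hx]
      · simp [hPQ x hx]
    exact mul_left_cancel₀ X_ne_zero this
  have hrefl : ∀ N, R.natDegree ≤ N → ∀ x : ℂ, x ≠ 0 →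
      (reflect N R).eval x = x ^ N * R.eval x⁻¹ := by
    intro N hN x hx
    have : Invertible x⁻¹ := invertibleOfNonzero (inv_ne_zero hx)
    have h5 := eval₂_reflect_mul_pow (RingHom.id ℂ) x⁻¹ N R hN
    rw [invOf_eq_inv, inv_inv] at h5
    have h6 : x ^ N * x⁻¹ ^ N = 1 := by rw [← mul_pow, mul_inv_cancel₀ hx, one_pow]
    have h7 : (reflect N R).eval x * x⁻¹ ^ N = R.eval x⁻¹ := h5
    rw [← h7, mul_left_comm, h6, mul_one]
  have hdeg : R.natDegree ≤ m := by
    by_contra hlt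
    push Not at hlt
    have h1 : R * X ^ (R.natDegree - m) = C e * reflect R.natDegree R := by
      refine eq_of _ _ fun x hx => ?_
      rw [eval_mul, eval_mul, eval_pow, eval_X, eval_C, hrefl _ le_rfl x hx, h x hx]
      have : x ^ R.natDegree = x ^ m * x ^ (R.natDegree - m) := by
        rw [← pow_add]; congr 1; omega
      rw [this]; ring
    have h2 := congrArg (eval 0) h1
    have h3 : R.natDegree - m ≠ 0 := by omega
    have h4 : (reflect R.natDegree R).eval 0 = R.leadingCoeff := by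
      rw [← coeff_zero_eq_eval_zero, coeff_reflect, revAt_le (Nat.zero_le _)]; rfl
    rw [eval_mul, eval_mul, eval_pow, eval_X, zero_pow h3, mul_zero, eval_C, h4] at h2
    rcases mul_eq_zero.mp h2.symm with h5 | h5
    · exact he h5
    · rw [leadingCoeff_eq_zero] at h5
      rw [h5] at hlt; simp at hlt
  refine ⟨hdeg, fun n hn => ?_⟩
  have h1 : R = C e * reflect m R := by
    refine eq_of _ _ fun x hx => ?_
    rw [eval_mul, eval_C, hrefl _ hdeg x hx, h x hx]
  conv_lhs => rw [h1]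
  rw [coeff_C_mul, coeff_reflect, revAt_le hn]

/-- Module A3. -/
theorem palin : Helper73_ED.PalinStatement := by
  intro d hd U
  exact palin_of_eval _ _ _ (pow_ne_zero _ (by norm_num))
    fun x hx => RU_eval_inv d U (by omega) x hx

end

end Helper88_ED
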