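import Pool.Agent.Helper88_ED.OneRoot

/-!
# Module A5 (`SpecialOneStatement`) for the ED degree of `σ₂(v_d)`
-/

open scoped Polynomial
open Polynomial

namespace Helper88_ED

noncomputable section

open Helper73_ED (aP bP fU gU RU mi dl F1 F2)

/-- Potentials, leading coefficient. -/
lemma det_leading {ι : Type*} [Fintype ι] [DecidableEq ι] (M : Matrix ι ι ℂ[X])
    (u v w : ι → ℕ) (h : ∀ k c, (X : ℂ[X]) ^ (u k + w c) ∣ M k c * X ^ (v c)) :
    (M.det * X ^ (∑ c, v c)).coeff (∑ k, u k + ∑ c, w c) =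
      (Matrix.of fun k c => (M k c * X ^ (v c)).coeff (u k + w c)).det := by
  choose N hN using h
  have h1 : (Matrix.of fun k c => X ^ (v c) * M k c).det = (∏ c, (X : ℂ[X]) ^ (v c)) * M.det :=
    Matrix.det_mul_row _ _
  have h2 : (Matrix.of fun k c => (X : ℂ[X]) ^ (v c) * M k c) =
      Matrix.of fun k c => X ^ (u k) * (Matrix.of fun k c => X ^ (w c) * N k c) k c := by
    ext1 k c
    simp only [Matrix.of_apply]
    rw [mul_comm, hN, pow_add]; ring
  rw [h2, Matrix.det_mul_column, Matrix.det_mul_row, Finset.prod_pow_eq_pow_sum,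
    Finset.prod_pow_eq_pow_sum, Finset.prod_pow_eq_pow_sum] at h1
  rw [mul_comm M.det, ← h1, ← mul_assoc, ← pow_add, coeff_X_pow_mul', if_pos le_rfl, Nat.sub_self]
  have h3 : (Matrix.of fun k c => (M k c * X ^ (v c)).coeff (u k + w c)) =
      (Matrix.of N).map (constantCoeff : ℂ[X] →+* ℂ) := by
    ext k c
    simp only [Matrix.of_apply, Matrix.map_apply, constantCoeff_apply]
    rw [hN, coeff_X_pow_mul', if_pos le_rfl, Nat.sub_self]
  rw [h3, ← RingHom.mapMatrix_apply, ← RingHom.map_det]
  rfl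

/-- row potential -/
def uu (d : ℕ) (k : Fin (d + d)) : ℕ := (k : ℕ) - d

/-- column potential (exponents) -/
def vv (d : ℕ) (c : Fin (d + d)) : ℕ :=
  Fin.addCases (motive := fun _ => ℕ) (fun _ : Fin d => 0) (fun j : Fin d => (j : ℕ) - 1) c

/-- column potential -/
def ww (d : ℕ) (c : Fin (d + d)) : ℕ :=
  Fin.addCases (motive := fun _ => ℕ) (fun _ : Fin d => 1) (fun _ : Fin d => 0) c

lemma vv_left (d : ℕ) (i : Fin d) : vv d (Fin.castAdd d i) = 0 := by simp [vv]
lemma vv_right (d : ℕ) (i : Fin d) : vv d (Fin.natAdd d i) = (i : ℕ) - 1 := by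
  simp only [vv, Fin.addCases_right]
lemma ww_left (d : ℕ) (i : Fin d) : ww d (Fin.castAdd d i) = 1 := by simp [ww]
lemma ww_right (d : ℕ) (i : Fin d) : ww d (Fin.natAdd d i) = 0 := by
  simp only [ww, Fin.addCases_right]

lemma syl_left (d : ℕ) (U : Fin (d + 1) → ℂ) (k : Fin (d + d)) (i : Fin d) :
    sylvester (fU d U) (gU d U) d d k (Fin.castAdd d i) =
      if (k : ℕ) ∈ Set.Icc (i : ℕ) (i + d) then (gU d U).coeff (k - i) else 0 := by
  simp only [sylvester, Matrix.of_apply, Fin.addCases_left]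

lemma syl_right (d : ℕ) (U : Fin (d + 1) → ℂ) (k : Fin (d + d)) (i : Fin d) :
    sylvester (fU d U) (gU d U) d d k (Fin.natAdd d i) =
      if (k : ℕ) ∈ Set.Icc (i : ℕ) (i + d) then (fU d U).coeff (k - i) else 0 := by
  simp only [sylvester, Matrix.of_apply, Fin.addCases_right]

lemma ordZero_dvd (d : ℕ) (hd : 4 ≤ d) (U : Fin (d + 1) → ℂ) (k c : Fin (d + d)) :
    (X : ℂ[X]) ^ (uu d k + ww d c) ∣ sylvester (fU d U) (gU d U) d d k c * X ^ (vv d c) := by
  induction c using Fin.addCases with
  | left i =>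
    have hi := i.2
    rw [vv_left, ww_left, syl_left, uu]
    simp only [pow_zero, mul_one, Set.mem_Icc]
    split_ifs with h
    · rw [gU_coeff, dif_pos (by omega)]
      refine Dvd.dvd.mul_left ?_ _
      by_cases hk : (k : ℕ) ≤ d
      · rw [show (k : ℕ) - d + 1 = 1 by omega, pow_one]
        exact X_dvd_bP d _ (by omega)
      · refine (pow_dvd_pow _ ?_).trans (X_pow_dvd_bP d _ (by omega))
        omega
    · exact dvd_zero _
  | right i =>
    have hi := i.2
    rw [vv_right, ww_right, syl_right, uu]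
    simp only [add_zero, Set.mem_Icc]
    split_ifs with h
    · rcases Nat.lt_or_ge (k : ℕ) (i + d) with hk | hk
      · exact Dvd.dvd.mul_left (pow_dvd_pow _ (by omega)) _
      · have hk' : (k : ℕ) - i = d := by omega
        rw [hk', fU_coeff, dif_pos (by omega)]
        have h1 := X_dvd_aP_last d (by omega)
        have h2 : (X : ℂ[X]) ^ ((k : ℕ) - d) ∣ X * X ^ ((i : ℕ) - 1) := by
          rw [← pow_succ']
          exact pow_dvd_pow _ (by omega)
        refine h2.trans (mul_dvd_mul (Dvd.dvd.mul_left h1 _) dvd_rfl)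
    · simp

/-! ### coefficients of `a_j` and `b_j` -/

lemma coeff_one_add_pow (n k : ℕ) : ((1 + X : ℂ[X]) ^ n).coeff k = n.choose k := by
  rw [add_comm, coeff_X_add_one_pow]

/-- `b_j` for `j < d`, low coefficients: `b_j = X^j (-j + X * (...)) + X^d * (...)` -/
lemma bP_coeff_self (d j : ℕ) (hj : j < d) : (bP d j).coeff j = -(j : ℂ) := by
  have : bP d j = X ^ j * ((1 + X) ^ (d - 1) * (C (d : ℂ) * X - C (j : ℂ) * (1 + X)) -
      C (2 ^ (d - 1) * ((d : ℂ) - 2 * (j : ℂ))) * X ^ (d - j)) := by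
    have h : (X : ℂ[X]) ^ d = X ^ j * X ^ (d - j) := by rw [← pow_add]; congr 1; omega
    rw [bP, h]; ring
  rw [this, coeff_X_pow_mul', if_pos le_rfl, Nat.sub_self, coeff_zero_eq_eval_zero]
  simp [show d - j ≠ 0 by omega]

lemma bP_coeff_lt (d j k : ℕ) (hj : j ≤ d) (hk : k < j) : (bP d j).coeff k = 0 := by
  obtain ⟨Q, hQ⟩ := X_pow_dvd_bP d j hj
  rw [hQ, coeff_X_pow_mul', if_neg (by omega)]

lemma bP_last_coeff (d : ℕ) : (bP d d).coeff d = d * (2 ^ (d - 1) - 1) := by
  have : bP d d = X ^ d * ((1 + X) ^ (d - 1) * (C (d : ℂ) * X - C (d : ℂ) * (1 + X)) -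
      C (2 ^ (d - 1) * ((d : ℂ) - 2 * (d : ℂ)))) := by
    rw [bP]; ring
  rw [this, coeff_X_pow_mul', if_pos le_rfl, Nat.sub_self, coeff_zero_eq_eval_zero]
  simp
  ring

lemma bP_zero_coeff_one (d : ℕ) (hd : 4 ≤ d) : (bP d 0).coeff 1 = d := by
  have : bP d 0 = X * (C (d : ℂ) * (1 + X) ^ (d - 1) -
      C (2 ^ (d - 1) * (d : ℂ)) * X ^ (d - 1)) := by
    have h : (X : ℂ[X]) ^ d = X * X ^ (d - 1) := by rw [← pow_succ']; congr 1; omega
    rw [bP, h]; simp; ring
  rw [this, coeff_X_mul, coeff_zero_eq_eval_zero]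
  simp [show d - 1 ≠ 0 by omega]

lemma aP_pen_coeff (d : ℕ) (hd : 4 ≤ d) : (aP d (d - 1)).coeff 0 = 1 := by
  rw [coeff_zero_eq_eval_zero, aP_eval, Nat.cast_sub (by omega)]
  simp [show d - 1 ≠ 0 by omega]

lemma aP_last_coeff_zero (d : ℕ) (hd : 4 ≤ d) : (aP d d).coeff 0 = 0 := by
  rw [coeff_zero_eq_eval_zero, aP_eval]
  simp [show d ≠ 0 by omega]

lemma aP_last_coeff_one (d : ℕ) (hd : 4 ≤ d) : (aP d d).coeff 1 = -d := by
  have : aP d d = X * (-C (d : ℂ) * (1 + X) ^ (d - 1) -
      C (2 ^ (d - 1) * ((d : ℂ) - 2 * d)) * X ^ (d - 1)) := by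
    have h : (X : ℂ[X]) ^ d = X * X ^ (d - 1) := by rw [← pow_succ']; congr 1; omega
    rw [aP, h]; ring
  rw [this, coeff_X_mul, coeff_zero_eq_eval_zero]
  simp [show d - 1 ≠ 0 by omega]

/-- the kernel of the leading matrix is trivial -/
lemma kernel_zero (d : ℕ) (hd : 4 ≤ d) (U : Fin (d + 1) → ℂ)
    (hUj : ∀ j : ℕ, ∀ h : j < d + 1, U ⟨j, h⟩ =
      if j = 0 then 1 else if j = d - 1 then 1 else if j = d then 1 else 0)
    (x : Fin (d + d) → ℂ)
    (colg : ∀ i : ℕ, i < d → ∑ k : Fin (d + d), x k *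
      (if (k : ℕ) ∈ Set.Icc (i : ℕ) (i + d) then (gU d U).coeff (k - i) else 0).coeff
        ((k : ℕ) - d + 1) = 0)
    (colf : ∀ i : ℕ, i < d → ∑ k : Fin (d + d), x k *
      ((if (k : ℕ) ∈ Set.Icc (i : ℕ) (i + d) then (fU d U).coeff (k - i) else 0) *
        X ^ ((i : ℕ) - 1)).coeff ((k : ℕ) - d) = 0) : x = 0 := by
  have hd0 : (d : ℂ) ≠ 0 := Nat.cast_ne_zero.mpr (by omega)
  -- rows `0, ..., d-2`
  have low : ∀ k : Fin (d + d), (k : ℕ) < d - 1 → x k = 0 := by
    intro k hk
    have h := colg k (by omega)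
    rw [Finset.sum_eq_single k] at h
    · rw [if_pos (by simp), gU_coeff, dif_pos (by omega), hUj, if_pos (by simp)] at h
      simp only [Nat.sub_self, C_1, one_mul] at h
      rw [show (k : ℕ) - d + 1 = 1 by omega, bP_zero_coeff_one d hd] at h
      exact (mul_eq_zero.mp h).resolve_right hd0
    · intro b _ hb
      have hb' : (b : ℕ) ≠ k := fun h => hb (Fin.ext h)
      by_cases hm : (b : ℕ) ∈ Set.Icc (k : ℕ) (k + d)
      · rw [if_pos hm, gU_coeff]
        rw [Set.mem_Icc] at hm
        rw [dif_pos (by omega), hUj]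
        split_ifs with h1 h2 h3
        · omega
        · rw [h2, C_1, one_mul, bP_coeff_lt d _ _ (by omega) (by omega), mul_zero]
        · rw [h3, C_1, one_mul, bP_coeff_lt d _ _ (by omega) (by omega), mul_zero]
        · simp
      · rw [if_neg hm]; simp
    · simp
  -- row `d-1`
  have mid : ∀ k : Fin (d + d), (k : ℕ) < d → x k = 0 := by
    intro k hk
    by_cases hk1 : (k : ℕ) < d - 1
    · exact low k hk1
    have hkd : (k : ℕ) = d - 1 := by omega
    have h := colf 0 (by omega)
    rw [Finset.sum_eq_single k] at h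
    · rw [if_pos (by first | omega | (simp; omega)), fU_coeff, dif_pos (by omega), hUj,
        if_neg (by omega), if_pos (by omega)] at h
      simp only [C_1, one_mul, hkd, Nat.sub_zero, pow_zero, mul_one,
        show d - 1 - d = 0 by omega, show 0 - 1 = 0 by rfl] at h
      rw [aP_pen_coeff d hd, mul_one] at h
      exact h
    · intro b _ hb
      have hb' : (b : ℕ) ≠ k := fun h => hb (Fin.ext h)
      by_cases hbl : (b : ℕ) < d - 1
      · rw [low b hbl, zero_mul]
      by_cases hm : (b : ℕ) ∈ Set.Icc (0 : ℕ) (0 + d)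
      · rw [if_pos hm]
        rw [Set.mem_Icc] at hm
        have hbd : (b : ℕ) = d := by omega
        rw [hbd, Nat.sub_zero, fU_coeff, dif_pos (by omega), hUj, if_neg (by omega),
          if_neg (by omega), if_pos rfl]
        simp only [C_1, one_mul, Nat.sub_self, pow_zero, mul_one, show 0 - 1 = 0 by rfl]
        rw [aP_last_coeff_zero d hd, mul_zero]
      · rw [if_neg hm]; simp
    · simp
  -- recursion
  have recur : ∀ i : ℕ, ∀ h1 : 1 ≤ i, ∀ h2 : i < d, ∀ k l : Fin (d + d),
      (k : ℕ) = d - 1 + i → (l : ℕ) = d + i → x k = d * x l := by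
    intro i h1 h2 k l hk hl
    have h := colf i h2
    rw [Finset.sum_eq_add_of_mem k l (Finset.mem_univ _) (Finset.mem_univ _)] at h
    · rw [if_pos (by first | omega | (simp; omega)), if_pos (by first | omega | (simp; omega)), fU_coeff, fU_coeff,
        dif_pos (by omega), dif_pos (by omega), hUj, hUj] at h
      rw [if_neg (by first | omega | (simp; omega)), if_pos (by first | omega | (simp; omega)), if_neg (by first | omega | (simp; omega)),
        if_neg (by first | omega | (simp; omega)), if_pos (by first | omega | (simp; omega))] at h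
      simp only [C_1, one_mul] at h
      rw [show (k : ℕ) - i = d - 1 by omega, show (l : ℕ) - i = d by omega,
        show (k : ℕ) - d = i - 1 by omega, show (l : ℕ) - d = 1 + (i - 1) by omega,
        coeff_mul_X_pow, coeff_mul_X_pow', if_pos le_rfl, Nat.sub_self, aP_pen_coeff d hd,
        aP_last_coeff_one d hd] at h
      linear_combination h
    · intro h; rw [h] at hk; omega
    · intro b _ hb
      have hbk : (b : ℕ) ≠ k := fun h => hb.1 (Fin.ext h)
      have hbl : (b : ℕ) ≠ l := fun h => hb.2 (Fin.ext h)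
      by_cases hbd : (b : ℕ) < d
      · rw [mid b hbd, zero_mul]
      by_cases hm : (b : ℕ) ∈ Set.Icc (i : ℕ) (i + d)
      · rw [if_pos hm, fU_coeff]
        rw [Set.mem_Icc] at hm
        rw [dif_pos (by omega), hUj, if_neg (by omega), if_neg (by omega), if_neg (by omega)]
        simp
      · rw [if_neg hm]; simp
  have top : ∀ k l : Fin (d + d), (k : ℕ) = 2 * d - 2 → (l : ℕ) = 2 * d - 1 →
      -((d : ℂ) - 1) * x k + d * (2 ^ (d - 1) - 1) * x l = 0 := by
    intro k l hk hl
    have h := colg (d - 1) (by omega)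
    rw [Finset.sum_eq_add_of_mem k l (Finset.mem_univ _) (Finset.mem_univ _)] at h
    · rw [if_pos (by first | omega | (simp; omega)), if_pos (by first | omega | (simp; omega)), gU_coeff, gU_coeff,
        dif_pos (by first | omega | (simp; omega)), dif_pos (by first | omega | (simp; omega)), hUj, hUj] at h
      rw [if_neg (by first | omega | (simp; omega)), if_pos (by first | omega | (simp; omega)), if_neg (by first | omega | (simp; omega)),
        if_neg (by first | omega | (simp; omega)), if_pos (by first | omega | (simp; omega))] at h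
      simp only [C_1, one_mul] at h
      rw [show (k : ℕ) - (d - 1) = d - 1 by omega, show (l : ℕ) - (d - 1) = d by omega,
        show (k : ℕ) - d + 1 = d - 1 by omega, show (l : ℕ) - d + 1 = d by omega,
        bP_coeff_self d _ (by omega), bP_last_coeff, Nat.cast_sub (by omega)] at h
      push_cast at h
      linear_combination h
    · intro h; rw [h] at hk; omega
    · intro b _ hb
      have hbk : (b : ℕ) ≠ k := fun h => hb.1 (Fin.ext h)
      have hbl : (b : ℕ) ≠ l := fun h => hb.2 (Fin.ext h)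
      by_cases hbd : (b : ℕ) < d
      · rw [mid b hbd, zero_mul]
      by_cases hm : (b : ℕ) ∈ Set.Icc (d - 1 : ℕ) (d - 1 + d)
      · rw [if_pos hm, gU_coeff]
        rw [Set.mem_Icc] at hm
        rw [dif_pos (by first | omega | (simp; omega)), hUj, if_neg (by first | omega | (simp; omega)), if_neg (by first | omega | (simp; omega)),
          if_neg (by first | omega | (simp; omega))]
        simp
      · rw [if_neg hm]; simp
  have hT : (2 : ℂ) ^ (d - 1) - d ≠ 0 := by
    have h1 : d < 2 ^ (d - 1) := by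
      obtain ⟨e, rfl⟩ : ∃ e, d = e + 4 := ⟨d - 4, by omega⟩
      clear * -
      induction e with
      | zero => norm_num
      | succ e ih =>
        have : e + 1 + 4 - 1 = (e + 4 - 1) + 1 := by omega
        rw [this, pow_succ]
        omega
    have h2 : (2 : ℂ) ^ (d - 1) = ((2 ^ (d - 1) : ℕ) : ℂ) := by simp
    rw [h2, sub_ne_zero]
    intro h
    have := Nat.cast_injective h
    omega
  have xlast : ∀ l : Fin (d + d), (l : ℕ) = 2 * d - 1 → x l = 0 := by
    intro l hl
    have t := top ⟨2 * d - 2, by omega⟩ l rfl hl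
    have r := recur (d - 1) (by omega) (by omega) ⟨2 * d - 2, by omega⟩ l (by first | omega | (simp; omega))
      (by omega)
    rw [r] at t
    have : (d : ℂ) * ((2 : ℂ) ^ (d - 1) - d) * x l = 0 := by linear_combination t
    exact (mul_eq_zero.mp this).resolve_left (mul_ne_zero hd0 hT)
  have all : ∀ m : ℕ, ∀ l : Fin (d + d), (l : ℕ) + m = 2 * d - 1 → x l = 0 := by
    intro m
    induction m with
    | zero => intro l hl; exact xlast l (by omega)
    | succ m ih =>
      intro l hl
      by_cases hld : (l : ℕ) < d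
      · exact mid l hld
      · have := recur ((l : ℕ) - (d - 1)) (by omega) (by omega) l ⟨(l : ℕ) + 1, by omega⟩
          (by omega) (by first | omega | (simp; omega))
        rw [this, ih ⟨(l : ℕ) + 1, by omega⟩ (by first | omega | (simp; omega)), mul_zero]
  ext l
  exact all (2 * d - 1 - l) l (by omega)

lemma coeff_eq_det (d : ℕ) (hd : 4 ≤ d) (U : Fin (d + 1) → ℂ) :
    (RU d U).coeff (2 * d - 1) =
    (Matrix.of fun k c : Fin (d + d) => (sylvester (fU d U) (gU d U) d d k c *
      X ^ (vv d c)).coeff (uu d k + ww d c)).det := by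
  have key := det_leading (sylvester (fU d U) (gU d U) d d) (uu d) (vv d) (ww d)
    (ordZero_dvd d hd U)
  have s1 : ∑ k : Fin (d + d), uu d k = ∑ i ∈ Finset.range d, i := by
    simp only [uu]
    rw [Fin.sum_univ_eq_sum_range (fun k => k - d) (d + d), Finset.sum_range_add]
    have : ∑ x ∈ Finset.range d, (x - d) = 0 :=
      Finset.sum_eq_zero fun x hx => by have := Finset.mem_range.mp hx; omega
    rw [this, zero_add]
    exact Finset.sum_congr rfl fun x _ => by omega
  have s2 : ∑ c : Fin (d + d), vv d c = ∑ j ∈ Finset.range d, (j - 1) := by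
    rw [Fin.sum_univ_add]
    simp only [vv_left, vv_right, Finset.sum_const_zero, zero_add]
    exact Fin.sum_univ_eq_sum_range (fun j => j - 1) d
  have s3 : ∑ c : Fin (d + d), ww d c = d := by
    rw [Fin.sum_univ_add]
    simp only [ww_left, ww_right, Finset.sum_const_zero, add_zero]
    simp
  have s4 : ∑ i ∈ Finset.range d, i = ∑ j ∈ Finset.range d, (j - 1) + (d - 1) := by
    obtain ⟨e, rfl⟩ : ∃ e, d = e + 1 := ⟨d - 1, by omega⟩
    rw [Finset.sum_range_succ, Finset.sum_range_succ' (fun j => j - 1)]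
    simp
  rw [s1, s2, s3, s4, show ∑ j ∈ Finset.range d, (j - 1) + (d - 1) + d =
    (2 * d - 1) + ∑ j ∈ Finset.range d, (j - 1) by omega, coeff_mul_X_pow] at key
  exact key

/-- Module A5. -/
theorem specialOne : Helper73_ED.SpecialOneStatement := by
  intro d hd
  obtain ⟨U, hU⟩ : ∃ U : Fin (d + 1) → ℂ, U = dl d 0 + dl d (d - 1) + dl d d := ⟨_, rfl⟩
  rw [← hU]
  have hUj : ∀ j : ℕ, ∀ h : j < d + 1, U ⟨j, h⟩ =
      if j = 0 then 1 else if j = d - 1 then 1 else if j = d then 1 else 0 := by
    intro j h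
    simp only [hU, Pi.add_apply, dl]
    split_ifs <;> first | omega | simp
  rw [coeff_eq_det d hd U]
  intro hdet
  obtain ⟨x, hx0, hx⟩ := Matrix.exists_vecMul_eq_zero_iff.mpr hdet
  refine hx0 (kernel_zero d hd U hUj x ?_ ?_)
  · intro i hi
    have := congrFun hx (Fin.castAdd d ⟨i, hi⟩)
    simp only [Matrix.vecMul, dotProduct, Matrix.of_apply, syl_left, vv_left, ww_left, uu,
      pow_zero, mul_one, Pi.zero_apply] at this
    exact this
  · intro i hi
    have := congrFun hx (Fin.natAdd d ⟨i, hi⟩)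
    simp only [Matrix.vecMul, dotProduct, Matrix.of_apply, syl_right, vv_right, ww_right, uu,
      Pi.zero_apply, add_zero] at this
    exact this

end

end Helper88_ED
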