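import Pool.Agent.Helper73_ED.Statements

/-!
# Module A7 (`TwoRootsStatement`) for the ED degree of `σ₂(v_d)`
-/

open scoped Polynomial
open Polynomial

namespace Helper88_ED

noncomputable section

/-- a row combination of the Sylvester matrix with powers, at the `g` columns -/
lemma sylv_comb_left {R : Type*} [CommRing R] (f g : R[X]) (m n : ℕ) (hg : g.natDegree ≤ n)
    (x : R) (j : Fin m) :
    ∑ k : Fin (m + n), x ^ (k : ℕ) * sylvester f g m n k (Fin.castAdd n j) =
      x ^ (j : ℕ) * g.eval x := by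
  have h1 : ∀ k : Fin (m + n), x ^ (k : ℕ) * sylvester f g m n k (Fin.castAdd n j) =
      (g * X ^ (j : ℕ)).coeff (k : ℕ) * x ^ (k : ℕ) := by
    intro k
    rw [mul_comm]
    congr 1
    simp only [sylvester, Matrix.of_apply, Fin.addCases_left, Set.mem_Icc, coeff_mul_X_pow']
    by_cases h : (j : ℕ) ≤ k
    · by_cases h' : (k : ℕ) ≤ j + n
      · simp [h, h']
      · simp only [h, h', and_false, if_false, if_true]
        exact (coeff_eq_zero_of_natDegree_lt (by omega)).symm
    · simp [h]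
  have h3 := Fin.sum_univ_eq_sum_range (fun k : ℕ => (g * X ^ (j : ℕ)).coeff k * x ^ k) (m + n)
  rw [Finset.sum_congr rfl fun k _ => h1 k, h3, ← eval_eq_sum_range']
  · simp [mul_comm]
  · have := natDegree_mul_le (p := g) (q := X ^ (j : ℕ))
    have h2 := natDegree_X_pow_le (R := R) (j : ℕ)
    have := j.2
    omega

/-- a row combination of the Sylvester matrix with powers, at the `f` columns -/
lemma sylv_comb_right {R : Type*} [CommRing R] (f g : R[X]) (m n : ℕ) (hf : f.natDegree ≤ m)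
    (x : R) (j : Fin n) :
    ∑ k : Fin (m + n), x ^ (k : ℕ) * sylvester f g m n k (Fin.natAdd m j) =
      x ^ (j : ℕ) * f.eval x := by
  have h1 : ∀ k : Fin (m + n), x ^ (k : ℕ) * sylvester f g m n k (Fin.natAdd m j) =
      (f * X ^ (j : ℕ)).coeff (k : ℕ) * x ^ (k : ℕ) := by
    intro k
    rw [mul_comm]
    congr 1
    simp only [sylvester, Matrix.of_apply, Fin.addCases_right, Set.mem_Icc, coeff_mul_X_pow']
    by_cases h : (j : ℕ) ≤ k
    · by_cases h' : (k : ℕ) ≤ j + m
      · simp [h, h']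
      · simp only [h, h', and_false, if_false, if_true]
        exact (coeff_eq_zero_of_natDegree_lt (by omega)).symm
    · simp [h]
  have h3 := Fin.sum_univ_eq_sum_range (fun k : ℕ => (f * X ^ (j : ℕ)).coeff k * x ^ k) (m + n)
  rw [Finset.sum_congr rfl fun k _ => h1 k, h3, ← eval_eq_sum_range']
  · simp [mul_comm]
  · have := natDegree_mul_le (p := f) (q := X ^ (j : ℕ))
    have h2 := natDegree_X_pow_le (R := R) (j : ℕ)
    have := j.2
    omega

/-- If all row combinations with powers of `x` and of `y` are divisible by `p`, where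
`x - y` is a unit, then `p ^ 2` divides the resultant. -/
lemma sq_dvd_resultant {R : Type*} [CommRing R] (f g : R[X]) (d : ℕ) (hd : 1 ≤ d)
    (hf : f.natDegree ≤ d) (hg : g.natDegree ≤ d) (p x y : R) (hxy : IsUnit (y - x))
    (h1 : p ∣ f.eval x) (h2 : p ∣ g.eval x) (h3 : p ∣ f.eval y) (h4 : p ∣ g.eval y) :
    p ^ 2 ∣ resultant f g d d := by
  classical
  set M := sylvester f g d d with hM
  have key : ∀ z : R, p ∣ f.eval z → p ∣ g.eval z → ∃ w : Fin (d + d) → R,
      ∑ k : Fin (d + d), (z ^ (k : ℕ)) • M k = p • w := by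
    intro z hz1 hz2
    obtain ⟨a, ha⟩ := hz1
    obtain ⟨b, hb⟩ := hz2
    refine ⟨fun c => Fin.addCases (fun j : Fin d => z ^ (j : ℕ) * b)
      (fun j : Fin d => z ^ (j : ℕ) * a) c, ?_⟩
    ext c
    simp only [Finset.sum_apply, Pi.smul_apply, smul_eq_mul]
    induction c using Fin.addCases with
    | left j =>
      rw [hM, sylv_comb_left f g d d hg z j, hb, Fin.addCases_left]; ring
    | right j =>
      rw [hM, sylv_comb_right f g d d hf z j, ha, Fin.addCases_right]; ring
  obtain ⟨w, hw⟩ := key x h1 h2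
  obtain ⟨v, hv⟩ := key y h3 h4
  set i0 : Fin (d + d) := ⟨0, by omega⟩ with hi0
  set i1 : Fin (d + d) := ⟨1, by omega⟩ with hi1
  have hne : i1 ≠ i0 := by simp [hi0, hi1, Fin.ext_iff]
  have e1 : M.det = p * (M.updateRow i0 w).det := by
    have := Matrix.det_updateRow_sum M i0 (fun k => x ^ (k : ℕ))
    rw [hw, Matrix.det_updateRow_smul] at this
    simpa [hi0] using this.symm
  set M' := M.updateRow i0 w with hM'
  have e2 : (y - x) * M'.det = p * (M'.updateRow i1 (v - w)).det := by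
    have := Matrix.det_updateRow_sum M' i1 (fun k => y ^ (k : ℕ) - x ^ (k : ℕ))
    have e3 : ∑ k : Fin (d + d), (y ^ (k : ℕ) - x ^ (k : ℕ)) • M' k = p • (v - w) := by
      rw [smul_sub, ← hv, ← hw, ← Finset.sum_sub_distrib]
      refine Finset.sum_congr rfl fun k _ => ?_
      by_cases hk : k = i0
      · subst hk
        simp [hi0]
      · rw [hM', Matrix.updateRow_ne hk, sub_smul]
    rw [e3, Matrix.det_updateRow_smul] at this
    simpa [hi1] using this.symm
  obtain ⟨u, hu⟩ := hxy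
  have e4 : M'.det = p * ((u⁻¹ : Rˣ) * (M'.updateRow i1 (v - w)).det) := by
    have : (u⁻¹ : Rˣ) * ((y - x) * M'.det) = (u⁻¹ : Rˣ) * (p * (M'.updateRow i1 (v - w)).det) := by
      rw [e2]
    rw [← hu, Units.inv_mul_cancel_left] at this
    rw [this]; ring
  rw [resultant, e1, e4]
  exact ⟨(u⁻¹ : Rˣ) * (M'.updateRow i1 (v - w)).det, by ring⟩

lemma fU_natDegree (d : ℕ) (U : Fin (d + 1) → ℂ) : (Helper73_ED.fU d U).natDegree ≤ d := by
  refine natDegree_sum_le_of_forall_le _ _ fun j _ => ?_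
  refine (natDegree_C_mul_X_pow_le _ _).trans ?_
  have := j.2
  omega

lemma gU_natDegree (d : ℕ) (U : Fin (d + 1) → ℂ) : (Helper73_ED.gU d U).natDegree ≤ d := by
  refine natDegree_sum_le_of_forall_le _ _ fun j _ => ?_
  refine (natDegree_C_mul_X_pow_le _ _).trans ?_
  have := j.2
  omega

lemma fU_eval (d : ℕ) (U : Fin (d + 1) → ℂ) (r s : ℂ) :
    ((Helper73_ED.fU d U).eval (C s)).eval r = Helper73_ED.F1 d U r s := by
  simp [Helper73_ED.fU, Helper73_ED.F1, eval_finsetSum]

lemma gU_eval (d : ℕ) (U : Fin (d + 1) → ℂ) (r s : ℂ) :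
    ((Helper73_ED.gU d U).eval (C s)).eval r = Helper73_ED.F2 d U r s := by
  simp [Helper73_ED.gU, Helper73_ED.F2, eval_finsetSum]

/-- Module A7. -/
theorem twoRoots : Helper73_ED.TwoRootsStatement := by
  intro d hd U r s s' hss h1 h2 h3 h4
  refine sq_dvd_resultant _ _ d hd (fU_natDegree d U) (gU_natDegree d U) _ (C s) (C s') ?_ ?_ ?_ ?_ ?_
  · rw [← C_sub]
    exact isUnit_C.mpr (sub_ne_zero.mpr (Ne.symm hss)).isUnit
  · rw [dvd_iff_isRoot, IsRoot, fU_eval, h1]
  · rw [dvd_iff_isRoot, IsRoot, gU_eval, h2]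
  · rw [dvd_iff_isRoot, IsRoot, fU_eval, h3]
  · rw [dvd_iff_isRoot, IsRoot, gU_eval, h4]

end

end Helper88_ED
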